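import Pool.Agent.Helper13.PS.St

set_option autoImplicit false

namespace Pool.Agent.Helper28.PS

open Finset Pool.Agent.Helper76.ND Pool.Agent.Helper13.PS

theorem hQC : StQC := by
  intro k t N
  have h : wd (k + t) N = wd k (S^[t] N) ++ wd t N := by
    induction k with
    | zero => simp [wd]
    | succ k ih =>
      have e : k + 1 + t = (k + t) + 1 := by ring
      rw [e]
      simp only [wd, ih, List.cons_append]
      rw [Function.iterate_add_apply]
  refine ⟨h, ?_⟩
  rw [h, hd_append]

end Pool.Agent.Helper28.PS
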