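import Pool.Agent.Helper13.PS.St2

set_option autoImplicit false

noncomputable section

namespace Pool.Agent.Helper28.PS

open Finset Pool.Agent.Helper76.ND Pool.Agent.Helper13.PS

/-- the allowed error at the scale `2^t` -/
private def gUH (H : ℝ) (t : ℕ) : ℝ :=
  if 2500 * H ≤ (t : ℝ) ^ 2 then 22 / 125 * Real.sqrt H - 7 * (H / t) else 0

private theorem strong_UH (hPI : StPI) (hQC : StQC) (hUE : StUE) (hUG : StUG) (H : ℝ)
    (hH : 2500 ≤ H) : ∀ m t N : ℕ, (t : ℝ) ≤ H →
    ((7937 / 10000 : ℝ) ^ m * t) ^ 2 < 2500 * H → 1 ≤ N → N ≤ 2 ^ t → ¬ XU H m t N → ∃ K : ℕ,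
    (∀ k ≤ K, |Real.log (S^[k] N : ℕ) - (Real.log N - rho * k)| ≤ gUH H t ∧
      |(hd (wd k N) : ℝ) - k / 2| ≤ gUH H t) ∧
    Real.log (S^[K] N : ℕ) ≤ 35 * Real.sqrt H := by
  set R := Real.sqrt H with hR
  have hR2 : R * R = H := Real.mul_self_sqrt (by linarith)
  have hR0 : 0 ≤ R := Real.sqrt_nonneg H
  have hR50 : 50 ≤ R := by
    by_contra hc
    push Not at hc
    nlinarith
  have small : ∀ t N : ℕ, 1 ≤ N → N ≤ 2 ^ t → (t : ℝ) ^ 2 < 2500 * H → ∃ K : ℕ,
      (∀ k ≤ K, |Real.log (S^[k] N : ℕ) - (Real.log N - rho * k)| ≤ gUH H t ∧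
        |(hd (wd k N) : ℝ) - k / 2| ≤ gUH H t) ∧ Real.log (S^[K] N : ℕ) ≤ 35 * R := by
    intro t N hN hNt ht
    refine ⟨0, ?_, ?_⟩
    · intro k hk
      have hk0 : k = 0 := Nat.le_zero.1 hk
      subst hk0
      have hg : gUH H t = 0 := by
        unfold gUH
        rw [if_neg (not_le.2 ht)]
      rw [hg]
      refine ⟨?_, ?_⟩
      · simp
      · have h1 : hd (wd 0 N) = 0 := rfl
        rw [h1]
        simp
    · simp only [Function.iterate_zero, id_eq]
      have h1 : (N : ℝ) ≤ 2 ^ t := by exact_mod_cast hNt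
      have h2 : (0 : ℝ) < N := by exact_mod_cast hN
      have h3 : Real.log N ≤ Real.log ((2 : ℝ) ^ t) := Real.log_le_log h2 h1
      rw [Real.log_pow] at h3
      have h4 : Real.log 2 < 0.6931471808 := Real.log_two_lt_d9
      have h5 : (0 : ℝ) ≤ t := Nat.cast_nonneg t
      have h6 : (t : ℝ) < 50 * R := by
        by_contra hc
        push Not at hc
        nlinarith
      have h7 : 0 < Real.log 2 := Real.log_pos (by norm_num)
      nlinarith
  intro m
  induction m with
  | zero =>
    intro t N _ hm hN hNt _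
    exact small t N hN hNt (by simpa using hm)
  | succ m ih =>
    intro t N htH hm hN hNt hX
    by_cases hc : 2500 * H ≤ (t : ℝ) ^ 2
    swap
    · exact small t N hN hNt (not_le.1 hc)
    have hE : ¬ EU H t N := fun h => hX ⟨hc, Or.inl h⟩
    have hX1 : ¬ XU H m (nx t N) (S^[t] N) := fun h => hX ⟨hc, Or.inr h⟩
    obtain ⟨_, hup, _⟩ := hUE H t N hH hc hN hNt hE
    have hlaw := hUG H t N hH htH hc hN hNt hE
    have hPI1 := hPI t N hN hNt
    rw [Finset.mem_Icc] at hPI1
    have hN1 : S^[t] N ≤ 2 ^ nx t N := hPI1.2.trans (Nat.le_pow_clog (by norm_num) _)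
    have ht0 : (0 : ℝ) ≤ t := Nat.cast_nonneg t
    have hn0 : (0 : ℝ) ≤ nx t N := Nat.cast_nonneg _
    have ht50 : 50 * R ≤ t := by
      by_contra hcc
      push Not at hcc
      nlinarith
    have htpos : (0 : ℝ) < t := by nlinarith
    have h8 : ((7937 / 10000 : ℝ) ^ m * nx t N) ^ 2 < 2500 * H := by
      refine lt_of_le_of_lt ?_ hm
      have h9 : (0 : ℝ) ≤ (7937 / 10000) ^ m := by positivity
      have h10 : (7937 / 10000 : ℝ) ^ m * nx t N ≤ (7937 / 10000) ^ (m + 1) * t := by
        calc (7937 / 10000 : ℝ) ^ m * nx t N ≤ (7937 / 10000) ^ m * (7937 / 10000 * t) :=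
              mul_le_mul_of_nonneg_left hup h9
          _ = _ := by ring
      exact pow_le_pow_left₀ (by positivity) h10 2
    obtain ⟨K1, hK1, hend⟩ := ih (nx t N) (S^[t] N) (by nlinarith) h8 hPI1.1 hN1 hX1
    set D := H / t with hD
    have hDt : D * t = H := by rw [hD]; field_simp
    have hD0 : 0 ≤ D := by rw [hD]; positivity
    have hDR : 50 * D ≤ R := by
      rw [hD, mul_div_assoc', div_le_iff₀ htpos]
      nlinarith
    have hg : gUH H t = 22 / 125 * R - 7 * D := by
      unfold gUH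
      rw [if_pos hc]
    have hg1 : 9 / 5 * D ≤ gUH H t := by rw [hg]; linarith
    have hg2 : 9 / 5 * D + gUH H (nx t N) ≤ gUH H t := by
      by_cases hc2 : 2500 * H ≤ (nx t N : ℝ) ^ 2
      · have hg3 : gUH H (nx t N) = 22 / 125 * R - 7 * (H / nx t N) := by
          unfold gUH
          rw [if_pos hc2]
        have hnpos : (0 : ℝ) < nx t N := by
          rcases hn0.lt_or_eq with h | h
          · exact h
          · rw [← h] at hc2
            nlinarith
        have h11 : 12599 / 10000 * D ≤ H / nx t N := by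
          rw [le_div_iff₀ hnpos]
          have h12 : D * nx t N ≤ D * (7937 / 10000 * t) := mul_le_mul_of_nonneg_left hup hD0
          nlinarith
        rw [hg3, hg]
        linarith
      · have hg3 : gUH H (nx t N) = 0 := by
          unfold gUH
          rw [if_neg hc2]
        rw [hg3]
        linarith
    refine ⟨K1 + t, ?_, ?_⟩
    · intro k hk
      rcases Nat.lt_or_ge t k with hkt | hkt
      · obtain ⟨k1, rfl⟩ : ∃ k1, k = k1 + t := ⟨k - t, by omega⟩
        have hk1 : k1 ≤ K1 := by omega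
        obtain ⟨a1, a2⟩ := hK1 k1 hk1
        obtain ⟨b1, b2⟩ := hlaw t le_rfl
        rw [Function.iterate_add_apply, (hQC k1 t N).2]
        rw [abs_le] at a1 a2 b1 b2 ⊢
        rw [abs_le]
        push_cast
        constructor <;> constructor <;> linarith
      · obtain ⟨b1, b2⟩ := hlaw k hkt
        constructor <;> linarith
    · rw [Function.iterate_add_apply]
      exact hend

theorem hUH (hPI : StPI) (hQC : StQC) (hUE : StUE) (hUG : StUG) : StUH := by
  intro H hH m t N htH hm hN hNt hX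
  obtain ⟨K, hK, he⟩ := strong_UH hPI hQC hUE hUG H hH m t N htH hm hN hNt hX
  have hg : gUH H t ≤ Real.sqrt H / 5 := by
    have hs := Real.sqrt_nonneg H
    unfold gUH
    split_ifs with h
    · have : 0 ≤ H / t := by positivity
      linarith
    · linarith
  exact ⟨K, fun k hk => ⟨(hK k hk).1.trans hg, (hK k hk).2.trans hg⟩, he⟩

end Pool.Agent.Helper28.PS
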